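import Pool.Agent.H88.KN.Targets

/-! PG (dr88_modules, MP_b5bf4a_co), helper20. -/

namespace Pool.Agent.H20.KN

open Finset Pool.Agent.H88.KN

theorem pg_T_nonneg (M : ℕ) [NeZero M] (j : ℕ) (z : ZMod (2 * M)) : 0 ≤ T M j z := by
  unfold T
  refine sum_nonneg fun y _ => ?_
  split_ifs <;> norm_num

theorem pg_wk (M : ℕ) (b : ZMod (2 * M) → Bool) (l : ℤ) :
    wk M (fun l : ℤ => b (l : ZMod (2 * M))) l = wz M b (l : ZMod (2 * M)) := by
  unfold wk wz
  refine sum_congr rfl fun t _ => ?_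
  have e : (((l - 1 - (t : ℤ) : ℤ)) : ZMod (2 * M)) = (l : ZMod (2 * M)) - 1 - (t : ZMod (2 * M)) := by
    push_cast
    ring
  show (if b (((l - 1 - (t : ℤ) : ℤ)) : ZMod (2 * M)) = true then (1 : ℤ) else 0) = _
  rw [e]

theorem pg_lip (M : ℕ) (b : ZMod (2 * M) → Bool) (hWS : T_WS) (hb : AntiZ M b) (a : ℤ) :
    ∀ n : ℕ, |wz M b ((a + n : ℤ) : ZMod (2 * M)) - wz M b (a : ZMod (2 * M))| ≤ n := by
  have hA : Anti M (fun l : ℤ => b (l : ZMod (2 * M))) := by
    intro l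
    have := hb (l : ZMod (2 * M))
    show b (((l + (M : ℤ) : ℤ)) : ZMod (2 * M)) = _
    push_cast
    exact this
  intro n
  induction n with
  | zero => simp
  | succ n ih =>
    have h := hWS M _ hA (a + n)
    rw [pg_wk, pg_wk] at h
    have e : (a + ((n + 1 : ℕ) : ℤ)) = a + n + 1 := by push_cast; ring
    rw [e, h]
    have h2 := abs_le.1 ih
    have hc : ((n + 1 : ℕ) : ℤ) = n + 1 := by push_cast; ring
    rw [abs_le, hc]
    split_ifs <;> constructor <;> linarith [h2.1, h2.2]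

theorem pg_lip' (M : ℕ) (b : ZMod (2 * M) → Bool) (hWS : T_WS) (hb : AntiZ M b)
    (u i : ZMod (2 * M)) (d : ℤ) (hd : (d : ZMod (2 * M)) = i - u) :
    wz M b i - wz M b u ≤ |d| := by
  obtain ⟨a, rfl⟩ := ZMod.intCast_surjective u
  have hi : i = ((a + d : ℤ) : ZMod (2 * M)) := by
    push_cast
    rw [hd]
    ring
  subst hi
  rcases le_or_gt 0 d with h | h
  · have h1 := pg_lip M b hWS hb a d.toNat
    rw [Int.toNat_of_nonneg h] at h1
    rw [abs_of_nonneg h]
    exact (abs_le.1 h1).2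
  · have h1 := pg_lip M b hWS hb (a + d) (-d).toNat
    rw [Int.toNat_of_nonneg (by omega)] at h1
    have e : a + d + -d = a := by ring
    rw [e] at h1
    rw [abs_of_neg h]
    have := (abs_le.1 h1).1
    linarith

theorem pg_le (M : ℕ) (b : ZMod (2 * M) → Bool) (i : ZMod (2 * M)) : wz M b i ≤ M := by
  unfold wz
  calc ∑ t ∈ range M, (if b (i - 1 - (t : ZMod (2 * M))) = true then (1 : ℤ) else 0)
      ≤ ∑ t ∈ range M, (1 : ℤ) := sum_le_sum fun t _ => by split_ifs <;> norm_num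
    _ = M := by simp

theorem pf_PG (hWS : T_WS) (hTL : T_TL) : T_PG := by
  intro M _ r hr b e hb μb μe hμb hμe i
  have hj : M - r ≤ M := Nat.sub_le M r
  have hjc : ((M - r : ℕ) : ℝ) = (M : ℝ) - r := by
    rw [Nat.cast_sub hr]
  have hiM : (wz M b i : ℝ) ≤ M := by
    have := pg_le M b i
    exact_mod_cast this
  have key : ∀ u : ZMod (2 * M), T M (M - r) (i - u) - ((M : ℝ) - wz M b i) ≤
      ∑ v, μb v * T M (M - r) (u - v) := by
    intro u
    obtain ⟨d, hd, hT⟩ := hTL M (M - r) hj (i - u)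
    have h0 : 0 ≤ ∑ v, μb v * T M (M - r) (u - v) :=
      sum_nonneg fun v _ => mul_nonneg (hμb.nonneg v) (pg_T_nonneg M _ _)
    have h1 := hμb.dom u
    have h2 : (wz M b i : ℝ) - wz M b u ≤ |(d : ℝ)| := by
      have := pg_lip' M b hWS hb u i d hd
      exact_mod_cast this
    rw [hjc] at hT
    have h3 : T M (M - r) (i - u) ≤ 0 ∨ T M (M - r) (i - u) ≤ (M : ℝ) - r - |(d : ℝ)| := by
      rcases le_total 0 ((M : ℝ) - r - |(d : ℝ)|) with h | h
      · rw [max_eq_right h] at hT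
        exact Or.inr hT
      · rw [max_eq_left h] at hT
        exact Or.inl hT
    rcases h3 with h3 | h3 <;> linarith
  have hsum : ∑ u, μe u * (T M (M - r) (i - u) - ((M : ℝ) - wz M b i)) ≤
      ∑ u, μe u * ∑ v, μb v * T M (M - r) (u - v) :=
    sum_le_sum fun u _ => mul_le_mul_of_nonneg_left (key u) (hμe.nonneg u)
  have e1 : ∑ u, μe u * (T M (M - r) (i - u) - ((M : ℝ) - wz M b i)) =
      ∑ u, μe u * T M (M - r) (i - u) - (∑ u, μe u) * ((M : ℝ) - wz M b i) := by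
    rw [sum_mul, ← sum_sub_distrib]
    refine sum_congr rfl fun u _ => ?_
    ring
  have e2 : ∑ u, μe u * ∑ v, μb v * T M (M - r) (u - v) =
      ∑ u, ∑ v, μe u * μb v * T M (M - r) (u - v) := by
    refine sum_congr rfl fun u _ => ?_
    rw [mul_sum]
    refine sum_congr rfl fun v _ => ?_
    ring
  have h4 := hμe.dom i
  have h5 : (∑ u, μe u) * ((M : ℝ) - wz M b i) ≤ 1 * ((M : ℝ) - wz M b i) :=
    mul_le_mul_of_nonneg_right hμe.mass (by linarith)
  rw [← e2]
  linarith [hsum, e1, h4, h5]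

end Pool.Agent.H20.KN
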