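import Pool.Agent.H88.KN.Targets

/-! PT (dr88_modules, MP_b5bf4a_co), helper20. -/

namespace Pool.Agent.H20.KN

open Finset Pool.Agent.H88.KN

theorem pf_PT : T_PT := by
  intro M w D h1 h2
  by_cases hP : ∃ l1 ∈ D, ∃ l2 ∈ D, l1 < l2 ∧ w l1 = true ∧ w l2 = false
  · obtain ⟨l1, hl1, l2, hl2, h12, hw1, hw2⟩ := hP
    have hno : ∀ l ∈ D, ∀ l' ∈ D, l < l' → w l = false → w l' = true → False := by
      intro l hl l' hl' hll hw hw'
      rcases lt_trichotomy l l1 with h | h | h
      · exact h2 l hl l1 hl1 l2 hl2 h h12 hw hw1 hw2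
      · rw [h, hw1] at hw; exact Bool.noConfusion hw
      · exact h1 l1 hl1 l hl l' hl' h hll hw1 hw hw'
    obtain ⟨i, hi, hmin⟩ := exists_min_image (D.filter (fun l => w l = false))
      (fun l => l.val) ⟨l2, by simp [hl2, hw2]⟩
    rw [mem_filter] at hi
    refine ⟨i.val, i.isLt.le, Or.inl fun l hl => ⟨fun hw => ?_, fun hlt => ?_⟩⟩
    · by_contra hge
      have hne : i ≠ l := by
        rintro rfl
        rw [hw] at hi
        exact Bool.noConfusion hi.2
      have : i < l := lt_of_le_of_ne (by rw [Fin.le_def]; omega) hne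
      exact hno i hi.1 l hl this hi.2 hw
    · by_contra hw
      have hw' : w l = false := by simpa using hw
      have := hmin l (mem_filter.2 ⟨hl, hw'⟩)
      omega
  · by_cases hex : ∃ l ∈ D, w l = true
    · obtain ⟨l0, hl0, hw0⟩ := hex
      obtain ⟨i, hi, hmin⟩ := exists_min_image (D.filter (fun l => w l = true))
        (fun l => l.val) ⟨l0, by simp [hl0, hw0]⟩
      rw [mem_filter] at hi
      refine ⟨i.val, i.isLt.le, Or.inr fun l hl => ⟨fun hw => ?_, fun hge => ?_⟩⟩
      · have := hmin l (mem_filter.2 ⟨hl, hw⟩)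
        omega
      · by_contra hw
        have hw' : w l = false := by simpa using hw
        have hne : i ≠ l := by
          rintro rfl
          exact hw hi.2
        have hlt : i < l := lt_of_le_of_ne (by rw [Fin.le_def]; omega) hne
        exact hP ⟨i, hi.1, l, hl, hlt, hi.2, hw'⟩
    · refine ⟨M, le_rfl, Or.inr fun l hl => ⟨fun hw => absurd ⟨l, hl, hw⟩ hex, fun h => ?_⟩⟩
      exact absurd l.isLt h

end Pool.Agent.H20.KN
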