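import Pool.Agent.H88.KN.Targets

/-! SM (dr88_modules, MP_b5bf4a_co), helper20. -/

namespace Pool.Agent.H20.KN

open Finset Pool.Agent.H88.KN

theorem sm_MM (M : ℕ) : ((M : ZMod (2 * M)) + (M : ZMod (2 * M))) = 0 := by
  rw [← Nat.cast_add, ← two_mul, ZMod.natCast_self]

theorem sm_negneg {α : Type*} (b : α → Bool) : neg (neg b) = b := by
  funext z
  unfold neg
  exact Bool.not_not (b z)

theorem sm_anti {M : ℕ} {b : ZMod (2 * M) → Bool} (hb : AntiZ M b) : AntiZ M (neg b) := by
  intro z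
  unfold neg
  rw [hb z]

theorem sm_wz {M : ℕ} {b : ZMod (2 * M) → Bool} (hb : AntiZ M b) (x : ZMod (2 * M)) :
    wz M (neg b) (x + (M : ZMod (2 * M))) = wz M b x := by
  unfold wz
  refine sum_congr rfl fun t _ => ?_
  have e : x + (M : ZMod (2 * M)) - 1 - (t : ZMod (2 * M)) =
      (x - 1 - (t : ZMod (2 * M))) + (M : ZMod (2 * M)) := by ring
  have e2 : neg b (x + (M : ZMod (2 * M)) - 1 - (t : ZMod (2 * M))) =
      b (x - 1 - (t : ZMod (2 * M))) := by
    unfold neg
    rw [e, hb, Bool.not_not]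
  rw [e2]

theorem pf_SM (hIM : T_IM) : T_SM := by
  classical
  intro M _ r h1 h2
  have hex : ∀ b : ZMod (2 * M) → Bool, ∃ μ : ZMod (2 * M) → ℝ, AntiZ M b → IsMu M r b μ := by
    intro b
    by_cases hb : AntiZ M b
    · obtain ⟨μ, hμ⟩ := hIM M r h1 h2 b hb
      exact ⟨μ, fun _ => hμ⟩
    · exact ⟨0, fun h => absurd h hb⟩
  choose μ0 hμ0 using hex
  refine ⟨fun b z => (μ0 b z + μ0 (neg b) (z + (M : ZMod (2 * M)))) / 2, ?_, ?_⟩
  · intro b hb
    have hm := hμ0 b hb
    have hm' := hμ0 (neg b) (sm_anti hb)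
    have hMM := sm_MM M
    refine ⟨?_, ?_, ?_, ?_⟩
    · intro z
      have a1 := hm.nonneg z
      have a2 := hm'.nonneg (z + (M : ZMod (2 * M)))
      show 0 ≤ (μ0 b z + μ0 (neg b) (z + (M : ZMod (2 * M)))) / 2
      linarith
    · show ∑ z, (μ0 b z + μ0 (neg b) (z + (M : ZMod (2 * M)))) / 2 ≤ 1
      have hs : ∑ z, μ0 (neg b) (z + (M : ZMod (2 * M))) = ∑ z, μ0 (neg b) z :=
        Equiv.sum_comp (Equiv.addRight (M : ZMod (2 * M))) (μ0 (neg b))
      rw [← sum_div, sum_add_distrib, hs]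
      have a1 := hm.mass
      have a2 := hm'.mass
      linarith
    · intro z hz
      have hz' : (μ0 b z + μ0 (neg b) (z + (M : ZMod (2 * M)))) / 2 ≠ 0 := hz
      by_cases h0 : μ0 b z = 0
      · have h3 : μ0 (neg b) (z + (M : ZMod (2 * M))) ≠ 0 := by
          intro h4
          apply hz'
          rw [h0, h4]
          norm_num
        obtain ⟨p1, p2⟩ := hm'.supp _ h3
        have e : z + (M : ZMod (2 * M)) - 1 = (z - 1) + (M : ZMod (2 * M)) := by ring
        rw [e] at p1
        unfold neg at p1 p2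
        rw [hb, Bool.not_not] at p1 p2
        exact ⟨p1, p2⟩
      · exact hm.supp z h0
    · intro x
      have a1 := hm.dom x
      have a2 := hm'.dom (x + (M : ZMod (2 * M)))
      rw [sm_wz hb x] at a2
      have e1 : ∑ u, (μ0 b u + μ0 (neg b) (u + (M : ZMod (2 * M)))) / 2 * T M (M - r) (x - u) =
          (∑ u, μ0 b u * T M (M - r) (x - u) +
            ∑ u, μ0 (neg b) (u + (M : ZMod (2 * M))) * T M (M - r) (x - u)) / 2 := by
        rw [← sum_add_distrib, sum_div]
        refine sum_congr rfl fun u _ => ?_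
        ring
      have e2 : ∑ u, μ0 (neg b) (u + (M : ZMod (2 * M))) * T M (M - r) (x - u) =
          ∑ u, μ0 (neg b) u * T M (M - r) (x + (M : ZMod (2 * M)) - u) := by
        rw [← Equiv.sum_comp (Equiv.addRight (M : ZMod (2 * M)))
          (fun u => μ0 (neg b) u * T M (M - r) (x + (M : ZMod (2 * M)) - u))]
        refine sum_congr rfl fun u _ => ?_
        have e3 : x + (M : ZMod (2 * M)) - (Equiv.addRight (M : ZMod (2 * M))) u = x - u := by
          rw [Equiv.coe_addRight]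
          ring
        rw [e3, Equiv.coe_addRight]
      show (wz M b x : ℝ) - r ≤ ∑ u, (μ0 b u + μ0 (neg b) (u + (M : ZMod (2 * M)))) / 2 *
        T M (M - r) (x - u)
      rw [e1, e2]
      linarith
  · intro b z
    have hMM := sm_MM M
    show (μ0 (neg b) z + μ0 (neg (neg b)) (z + (M : ZMod (2 * M)))) / 2 =
      (μ0 b (z + (M : ZMod (2 * M))) +
        μ0 (neg b) (z + (M : ZMod (2 * M)) + (M : ZMod (2 * M)))) / 2
    rw [sm_negneg, add_assoc z, hMM, add_zero, add_comm]

end Pool.Agent.H20.KN
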